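import Mathlib

namespace Pool.Agent.H.MP_58b66c_an

open Polynomial Complex Finset

/-- The three-term block `1 + w - (3/10) w^2` is at most `sqrt (1859/600)` times its largest term. -/
lemma block_bound (G : ℝ) (hG : 0 ≤ G) (hG2 : 1859 / 600 ≤ G ^ 2) (w : ℂ) :
    ‖1 + w - (3 / 10 : ℂ) * w ^ 2‖ ≤ G * max 1 (max ‖w‖ (3 / 10 * ‖w‖ ^ 2)) := by
  set y : ℝ := ‖w‖ ^ 2 with hy
  have hyw : y = w.re ^ 2 + w.im ^ 2 := by
    rw [hy, Complex.sq_norm, Complex.normSq_apply]; ring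
  have hy0 : 0 ≤ y := by positivity
  have h1 : ‖1 + w - (3 / 10 : ℂ) * w ^ 2‖ ^ 2 ≤
      (1 + 3 / 10 * y) ^ 2 + y + (1 - 3 / 10 * y) ^ 2 * (5 / 6) := by
    rw [Complex.sq_norm, Complex.normSq_apply]
    have e1 : (1 + w - (3 / 10 : ℂ) * w ^ 2).re = 1 + w.re - 3 / 10 * (w.re ^ 2 - w.im ^ 2) := by
      simp [pow_two]
    have e2 : (1 + w - (3 / 10 : ℂ) * w ^ 2).im = w.im - 3 / 10 * (2 * w.re * w.im) := by
      simp [pow_two]; ring
    rw [e1, e2, hyw]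
    nlinarith [sq_nonneg (1 - 3 / 10 * (w.re ^ 2 + w.im ^ 2) - 6 / 5 * w.re)]
  set m : ℝ := max 1 (max ‖w‖ (3 / 10 * y)) with hm
  have hm1 : 1 ≤ m := le_max_left _ _
  have hm2 : ‖w‖ ≤ m := (le_max_left _ _).trans (le_max_right _ _)
  have hm3 : 3 / 10 * y ≤ m := (le_max_right _ _).trans (le_max_right _ _)
  have hm2' : y ≤ m ^ 2 := pow_le_pow_left₀ (norm_nonneg _) hm2 2
  have h2 : (1 + 3 / 10 * y) ^ 2 + y + (1 - 3 / 10 * y) ^ 2 * (5 / 6) ≤ 1859 / 600 * m ^ 2 := by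
    rcases le_total y 1 with h | h
    · nlinarith
    · rcases le_total y (100 / 9) with h' | h'
      · nlinarith
      · have : (3 / 10 * y) ^ 2 ≤ m ^ 2 := pow_le_pow_left₀ (by positivity) hm3 2
        nlinarith
  refine (abs_le_of_sq_le_sq' ?_ (by positivity)).2
  rw [mul_pow]
  nlinarith [sq_nonneg m]

lemma half_coeff {e : ℝ} {B : ℝ[X]} (h : ∀ l, |B.coeff l| ≤ e) (a : ℕ) (l : ℕ) :
    |(C (1 / 2 : ℝ) * (1 + X ^ a) * B).coeff l| ≤ e := by
  have he : 0 ≤ e := (abs_nonneg _).trans (h 0)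
  have : C (1 / 2 : ℝ) * (1 + X ^ a) * B = C (1 / 2 : ℝ) * (B + X ^ a * B) := by ring
  rw [this, coeff_C_mul, coeff_add, coeff_X_pow_mul']
  have h1 := h l
  have h2 := h (l - a)
  rw [abs_le] at *
  split_ifs <;> constructor <;> linarith

/-- geometric sum -/
noncomputable def S (m : ℕ) : ℝ[X] := ∑ l ∈ range m, X ^ l

lemma S_coeff (m l : ℕ) : |(S m).coeff l| ≤ 1 := by
  unfold S
  rw [finsetSum_coeff]
  simp only [coeff_X_pow, sum_ite_eq]
  split_ifs <;> simp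

lemma SS_coeff (m l : ℕ) : |(S m * S m).coeff l| ≤ m := by
  have : S m * S m = ∑ i ∈ range m, X ^ i * S m := by
    conv_lhs => rw [S, sum_mul]
    rfl
  rw [this, finsetSum_coeff]
  refine (abs_sum_le_sum_abs _ _).trans ?_
  have : ∀ i ∈ range m, |(X ^ i * S m).coeff l| ≤ (1 : ℝ) := by
    intro i _
    rw [coeff_X_pow_mul']
    split_ifs
    · exact S_coeff _ _
    · simp
  simpa using sum_le_card_nsmul _ _ _ this

lemma S_deg (m : ℕ) : (S (m + 1)).natDegree ≤ m := by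
  unfold S
  refine natDegree_sum_le_of_forall_le _ _ fun i hi => ?_
  rw [natDegree_X_pow]
  exact Nat.lt_succ_iff.1 (mem_range.1 hi)

lemma S_eval (m : ℕ) (u : ℂ) : aeval u (S m) = ∑ l ∈ range m, u ^ l := by
  simp [S]

lemma S_sq (m : ℕ) (u : ℂ) (hu : ‖u‖ = 1) :
    aeval u (S (m + 1)) * aeval u (S (m + 1)) =
      u ^ m * ((‖aeval u (S (m + 1))‖ ^ 2 : ℝ) : ℂ) := by
  have h1 : u * (starRingEnd ℂ) u = 1 := by
    rw [Complex.mul_conj, Complex.normSq_eq_norm_sq, hu]; simp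
  have h2 : aeval u (S (m + 1)) = u ^ m * (starRingEnd ℂ) (aeval u (S (m + 1))) := by
    rw [S_eval, map_sum, mul_sum, ← sum_range_reflect]
    refine sum_congr rfl fun i hi => ?_
    have hi' : i ≤ m := Nat.lt_succ_iff.1 (mem_range.1 hi)
    obtain ⟨k, rfl⟩ := Nat.exists_eq_add_of_le hi'
    have : i + k + 1 - 1 - i = k := by omega
    rw [this, map_pow, pow_add, mul_right_comm, ← mul_pow, h1, one_pow, one_mul]
  rw [← Complex.normSq_eq_norm_sq, ← Complex.mul_conj]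
  conv_lhs => rw [h2]
  rw [← h2]
  conv_lhs => rhs; rw [h2]
  ring

lemma S_norm (m : ℕ) (u : ℂ) (hu : ‖u‖ = 1) : ‖aeval u (S m)‖ ≤ m := by
  rw [S_eval]
  refine (norm_sum_le _ _).trans ?_
  simp [hu]

/-- the bump polynomial -/
noncomputable def G (n : ℕ) : ℝ[X] :=
  C (1 / 2 : ℝ) * (1 + X ^ 2) * (C (1 / 2 : ℝ) * (1 + X ^ 2) * (C (1 / 2 : ℝ) * (1 + X ^ 1) *
    (C (1 / 2 : ℝ) * (1 + X ^ 1) *
      (C (1 / ((4 * n + 2 : ℕ) : ℝ) ^ 2) * (S (4 * n + 1 + 1) * S (4 * n + 1 + 1))))))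

lemma G_coeff (n l : ℕ) : |(G n).coeff l| ≤ 1 / ((4 * n + 2 : ℕ) : ℝ) := by
  unfold G
  refine half_coeff (half_coeff (half_coeff (half_coeff (fun l => ?_) 1) 1) 2) 2 l
  rw [coeff_C_mul, abs_mul, abs_of_nonneg (by positivity)]
  have h := SS_coeff (4 * n + 1 + 1) l
  have hp : (0 : ℝ) < ((4 * n + 2 : ℕ) : ℝ) := by positivity
  calc 1 / ((4 * n + 2 : ℕ) : ℝ) ^ 2 * |(S (4 * n + 1 + 1) * S (4 * n + 1 + 1)).coeff l|
      ≤ 1 / ((4 * n + 2 : ℕ) : ℝ) ^ 2 * ((4 * n + 2 : ℕ) : ℝ) := by gcongr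
    _ = _ := by field_simp

lemma G_deg (n : ℕ) : (G n).natDegree < 2 * (4 * n + 4) + 1 := by
  have hS := S_deg (4 * n + 1)
  have hh : ∀ (a : ℕ) (B : ℝ[X]) (d : ℕ), B.natDegree ≤ d →
      (C (1 / 2 : ℝ) * (1 + X ^ a) * B).natDegree ≤ a + d := by
    intro a B d h
    refine natDegree_mul_le.trans (add_le_add ?_ h)
    refine (natDegree_C_mul_le _ _).trans ?_
    refine (natDegree_add_le _ _).trans ?_
    simp
  have h0 : (C (1 / ((4 * n + 2 : ℕ) : ℝ) ^ 2) *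
      (S (4 * n + 1 + 1) * S (4 * n + 1 + 1))).natDegree ≤ (4 * n + 1) + (4 * n + 1) :=
    (natDegree_C_mul_le _ _).trans (natDegree_mul_le.trans (add_le_add hS hS))
  have := hh 2 _ _ (hh 2 _ _ (hh 1 _ _ (hh 1 _ _ h0)))
  unfold G
  omega

/-- the real value of the bump on the unit circle -/
noncomputable def chi (n : ℕ) (u : ℂ) : ℝ :=
  u.re ^ 2 * ((1 + u.re) / 2) * (‖aeval u (S (4 * n + 1 + 1))‖ ^ 2 / ((4 * n + 2 : ℕ) : ℝ) ^ 2)

lemma G_eval (n : ℕ) (u : ℂ) (hu : ‖u‖ = 1) :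
    aeval u (G n) = u ^ (4 * n + 4) * (chi n u : ℂ) := by
  have h1 : u * (starRingEnd ℂ) u = 1 := by
    rw [Complex.mul_conj, Complex.normSq_eq_norm_sq, hu]; simp
  have h2 : u + (starRingEnd ℂ) u = 2 * (u.re : ℂ) := by
    rw [Complex.add_conj]; push_cast; ring
  have h3 : 1 + u ^ 2 = 2 * (u.re : ℂ) * u := by
    rw [← h2, ← h1]; ring
  have h4 : (1 + u) ^ 2 = 2 * (1 + (u.re : ℂ)) * u := by
    have : (1 + u) ^ 2 = (1 + u ^ 2) + 2 * u := by ring
    rw [this, h3]; ring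
  have h5 := S_sq (4 * n + 1) u hu
  unfold G chi
  simp only [map_mul, map_add, map_one, map_pow, aeval_X, aeval_C, h5, Complex.coe_algebraMap]
  have : ∀ a b c : ℂ, a * (1 + u ^ 2) * (a * (1 + u ^ 2) * (a * (1 + u ^ 1) *
      (a * (1 + u ^ 1) * (b * c)))) = a ^ 4 * (1 + u ^ 2) ^ 2 * (1 + u) ^ 2 * b * c := by
    intro a b c; ring
  rw [this, h3, h4]
  push_cast
  ring

lemma chi_nonneg (n : ℕ) (u : ℂ) (hu : ‖u‖ = 1) : 0 ≤ chi n u := by
  have h := abs_le.1 (hu ▸ Complex.abs_re_le_norm u)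
  unfold chi
  have : 0 ≤ (1 + u.re) / 2 := by linarith
  positivity

lemma chi_le (n : ℕ) (u : ℂ) (hu : ‖u‖ = 1) : chi n u ≤ u.re ^ 2 * ((1 + u.re) / 2) := by
  have h := abs_le.1 (hu ▸ Complex.abs_re_le_norm u)
  have h0 : 0 ≤ u.re ^ 2 * ((1 + u.re) / 2) := mul_nonneg (sq_nonneg _) (by linarith)
  unfold chi
  refine mul_le_of_le_one_right h0 ?_
  rw [div_le_one (by positivity)]
  exact pow_le_pow_left₀ (norm_nonneg _) (S_norm _ _ hu) 2

lemma chi_one (n : ℕ) : chi n 1 = 1 := by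
  unfold chi
  rw [S_eval]
  simp only [one_pow, sum_const, card_range, nsmul_eq_mul, mul_one, Complex.norm_natCast,
    Complex.one_re]
  have hp : (0 : ℝ) < ((4 * n + 2 : ℕ) : ℝ) := by positivity
  have : ((4 * n + 1 + 1 : ℕ) : ℝ) = ((4 * n + 2 : ℕ) : ℝ) := rfl
  rw [this]
  field_simp
  norm_num

lemma chi_sum (n : ℕ) (u : ℂ) (hu : ‖u‖ = 1) :
    chi n u + chi n (I * u) + chi n (-u) + chi n (-(I * u)) ≤ 1 := by
  have h1 := chi_le n u hu
  have h2 := chi_le n (I * u) (by simp [hu])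
  have h3 := chi_le n (-u) (by simp [hu])
  have h4 := chi_le n (-(I * u)) (by simp [hu])
  have h5 : u.re ^ 2 + u.im ^ 2 = 1 := by
    have := Complex.sq_norm u
    rw [hu, Complex.normSq_apply] at this
    nlinarith
  simp only [mul_re, I_re, zero_mul, I_im, one_mul, zero_sub, neg_re, neg_neg] at h2 h3 h4
  nlinarith

/-- The slow multiplier. -/
theorem bump (k : ℝ) (hk0 : 0 < k) (hk : 1859 / 600 < k ^ 2) :
    ∃ (D : ℕ) (q : ℕ → ℂ) (Q : ℂ → ℂ), (∀ z, Q z = ∑ l ∈ range (2 * D + 1), q l * z ^ l) ∧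
      q D = 1 ∧ (∀ l, ‖q l‖ ≤ 1) ∧
      (∀ u w : ℂ, ‖u‖ = 1 → ‖Q u + Q (I * u) * w - (3 / 10 : ℂ) * (Q (-u) * w ^ 2)‖ ≤
        k * max 1 (max ‖w‖ (3 / 10 * ‖w‖ ^ 2))) ∧
      ‖Q 1‖ = k ∧ Q I = 0 ∧ Q (-1) = 0 ∧ Q (-I) = 0 := by
  set g : ℝ := √(1859 / 600) with hg
  have hg2 : g ^ 2 = 1859 / 600 := Real.sq_sqrt (by norm_num)
  have hg0 : 0 ≤ g := Real.sqrt_nonneg _
  have hg1 : 1 ≤ g := by nlinarith
  have hgk : g < k := by nlinarith
  obtain ⟨n, hn⟩ := exists_nat_ge (max (5 * k) ((k * g + 4 * k) / (k - g)))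
  set e : ℝ := 1 / ((4 * n + 2 : ℕ) : ℝ) with he
  have hp : (0 : ℝ) < ((4 * n + 2 : ℕ) : ℝ) := by positivity
  have hnn : (n : ℝ) ≤ ((4 * n + 2 : ℕ) : ℝ) := by exact_mod_cast (by omega)
  have he0 : 0 < e := by positivity
  have he1 : 5 * k * e ≤ 1 := by
    rw [he, mul_one_div, div_le_one hp]
    exact ((le_max_left _ _).trans hn).trans hnn
  have he2 : (k * g + 4 * k) * e ≤ k - g := by
    have := ((le_max_right _ _).trans hn).trans hnn
    rw [div_le_iff₀ (by linarith)] at this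
    rw [he, mul_one_div, div_le_iff₀ hp]
    linarith
  set D := 4 * n + 4 with hD
  have hc : ∀ l, |(G n).coeff l| ≤ e := G_coeff n
  set mu : ℝ := (G n).coeff D with hmu
  have hmu' := abs_le.1 (hc D)
  rw [← hmu] at hmu'
  have he3 : 5 * e ≤ 1 := by nlinarith
  have hden : 0 < 1 - 4 * mu := by linarith
  set lam : ℝ := (1 - k * mu) / (1 - 4 * mu) with hlam
  have hl0 : 0 ≤ lam := div_nonneg (by nlinarith) hden.le
  have hl1 : lam * g ≤ k := by
    rw [hlam, div_mul_eq_mul_div, div_le_iff₀ hden]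
    have : 0 ≤ k * g := by positivity
    nlinarith
  have hl2 : lam ≤ k := by nlinarith
  have hl3 : lam * (1 - 4 * mu) + k * mu = 1 := by
    rw [hlam, div_mul_cancel₀ _ hden.ne']; ring
  set E : ℂ → ℂ := fun z => aeval z (G n) with hE
  have hEs : ∀ z, E z = ∑ l ∈ range (2 * D + 1), ((G n).coeff l : ℂ) * z ^ l := by
    intro z
    simp only [hE]
    rw [aeval_eq_sum_range' (G_deg n)]
    simp only [Complex.real_smul, hD]
  have hI4 : ∀ z : ℂ, (I * z) ^ D = z ^ D := by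
    intro z
    rw [mul_pow, hD, show 4 * n + 4 = 4 * (n + 1) by ring, pow_mul, I_pow_four]; simp
  have hN4 : ∀ z : ℂ, (-z) ^ D = z ^ D := by
    intro z
    rw [hD, show 4 * n + 4 = 2 * (2 * n + 2) by ring, pow_mul, pow_mul, neg_sq]
  have hval : ∀ u : ℂ, ‖u‖ = 1 → (lam : ℂ) * u ^ D - lam * (E u + E (I * u) + E (-u) + E (-(I * u)))
      + k * E u = u ^ D * ((lam * (1 - (chi n u + chi n (I * u) + chi n (-u) + chi n (-(I * u))))
        + k * chi n u : ℝ) : ℂ) := by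
    intro u hu
    simp only [hE]
    rw [G_eval n u hu, G_eval n (I * u) (by simp [hu]), G_eval n (-u) (by simp [hu]),
      G_eval n (-(I * u)) (by simp [hu]), ← hD, hN4, hN4, hI4]
    push_cast; ring
  have hII : ∀ u : ℂ, I * (I * u) = -u := by
    intro u; rw [← mul_assoc, I_mul_I]; ring
  have c1 := chi_one n
  have cI : chi n I = 0 := by simp [chi]
  have cI' : chi n (-I) = 0 := by simp [chi]
  have cm : chi n (-1) = 0 := by simp [chi]
  refine ⟨D, fun l => (if l = D then (lam : ℂ) else 0) -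
      lam * ((G n).coeff l * (1 + I ^ l + (-1) ^ l + (-I) ^ l)) + k * (G n).coeff l,
    fun z => lam * z ^ D - lam * (E z + E (I * z) + E (-z) + E (-(I * z))) + k * E z,
    ?_, ?_, ?_, ?_, ?_, ?_, ?_, ?_⟩
  · intro z
    have h1 : (lam : ℂ) * z ^ D =
        ∑ l ∈ range (2 * D + 1), (if l = D then (lam : ℂ) else 0) * z ^ l := by
      rw [sum_eq_single D]
      · simp
      · intro b _ hb; simp [hb]
      · intro h; exact absurd (mem_range.2 (by omega)) h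
    simp only [hEs, h1, mul_sum, ← sum_add_distrib, ← sum_sub_distrib]
    refine sum_congr rfl fun l _ => ?_
    rw [neg_pow z, ← neg_mul I z, mul_pow, mul_pow]
    ring
  · have a1 : (I : ℂ) ^ D = 1 := by simpa using hI4 1
    have a2 : (-1 : ℂ) ^ D = 1 := by simpa using hN4 1
    have a3 : (-I : ℂ) ^ D = 1 := by rw [hN4, a1]
    simp only [if_true, a1, a2, a3, ← hmu]
    have : (lam : ℂ) - lam * (mu * (1 + 1 + 1 + 1)) + k * mu =
        ((lam * (1 - 4 * mu) + k * mu : ℝ) : ℂ) := by push_cast; ring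
    rw [this, hl3]; simp
  · intro l
    by_cases hl : l = D
    · subst hl
      have a1 : (I : ℂ) ^ D = 1 := by simpa using hI4 1
      have a2 : (-1 : ℂ) ^ D = 1 := by simpa using hN4 1
      have a3 : (-I : ℂ) ^ D = 1 := by rw [hN4, a1]
      simp only [if_true, a1, a2, a3, ← hmu]
      have : (lam : ℂ) - lam * (mu * (1 + 1 + 1 + 1)) + k * mu =
          ((lam * (1 - 4 * mu) + k * mu : ℝ) : ℂ) := by push_cast; ring
      rw [this, hl3]; simp
    · simp only [hl, if_false, zero_sub]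
      have b1 : ‖(1 + I ^ l + (-1) ^ l + (-I) ^ l : ℂ)‖ ≤ 4 := by
        refine (norm_add_le _ _).trans ?_
        have := norm_add₃_le (a := (1 : ℂ)) (b := I ^ l) (c := (-1) ^ l)
        simp only [norm_pow, norm_neg, norm_one, norm_I, one_pow] at this ⊢
        linarith
      refine (norm_add_le _ _).trans ?_
      simp only [norm_neg, norm_mul, Complex.norm_real, Real.norm_eq_abs, abs_of_nonneg hl0,
        abs_of_pos hk0]
      have b2 := hc l
      have b3 : |(G n).coeff l| * ‖(1 + I ^ l + (-1) ^ l + (-I) ^ l : ℂ)‖ ≤ e * 4 := by gcongr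
      have b4 : lam * (|(G n).coeff l| * ‖(1 + I ^ l + (-1) ^ l + (-I) ^ l : ℂ)‖) ≤ k * (e * 4) := by
        gcongr
      have b5 : k * |(G n).coeff l| ≤ k * e := by gcongr
      linarith
  · intro u w hu
    have v0 := hval u hu
    have v1 := hval (I * u) (by simp [hu])
    have v2 := hval (-u) (by simp [hu])
    simp only [hII, neg_neg, mul_neg, hI4, hN4] at v1 v2 ⊢
    rw [v0, v1, v2]
    set c0 := chi n u
    set c1 := chi n (I * u)
    set c2 := chi n (-u)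
    set c3 := chi n (-(I * u))
    have p0 : 0 ≤ c0 := chi_nonneg n u hu
    have p1 : 0 ≤ c1 := chi_nonneg n _ (by simp [hu])
    have p2 : 0 ≤ c2 := chi_nonneg n _ (by simp [hu])
    have p3 : 0 ≤ c3 := chi_nonneg n _ (by simp [hu])
    have ps : c0 + c1 + c2 + c3 ≤ 1 := chi_sum n u hu
    set m : ℝ := max 1 (max ‖w‖ (3 / 10 * ‖w‖ ^ 2)) with hm
    have hm1 : 1 ≤ m := le_max_left _ _
    have hm2 : ‖w‖ ≤ m := (le_max_left _ _).trans (le_max_right _ _)
    have hm3 : 3 / 10 * ‖w‖ ^ 2 ≤ m := (le_max_right _ _).trans (le_max_right _ _)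
    have hb := block_bound g hg0 hg2.ge w
    rw [← hm] at hb
    have : u ^ D * ((lam * (1 - (c0 + c1 + c2 + c3)) + k * c0 : ℝ) : ℂ) +
        u ^ D * ((lam * (1 - (c1 + c2 + c3 + c0)) + k * c1 : ℝ) : ℂ) * w -
        3 / 10 * (u ^ D * ((lam * (1 - (c2 + c3 + c0 + c1)) + k * c2 : ℝ) : ℂ) * w ^ 2) =
        u ^ D * (((lam * (1 - (c0 + c1 + c2 + c3)) : ℝ) : ℂ) * (1 + w - 3 / 10 * w ^ 2) +
          (((k * c0 : ℝ) : ℂ) + ((k * c1 : ℝ) : ℂ) * w + -(((k * c2 * (3 / 10) : ℝ) : ℂ) * w ^ 2))) := by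
      push_cast; ring
    rw [this, norm_mul, norm_pow, hu, one_pow, one_mul]
    refine (norm_add_le _ _).trans ?_
    have t := norm_add₃_le (a := ((k * c0 : ℝ) : ℂ)) (b := ((k * c1 : ℝ) : ℂ) * w)
      (c := -(((k * c2 * (3 / 10) : ℝ) : ℂ) * w ^ 2))
    have q0 : 0 ≤ lam * (1 - (c0 + c1 + c2 + c3)) := mul_nonneg hl0 (by linarith)
    rw [norm_neg, norm_mul, norm_mul, norm_pow, Complex.norm_of_nonneg (by positivity),
      Complex.norm_of_nonneg (by positivity), Complex.norm_of_nonneg (by positivity)] at t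
    rw [norm_mul, Complex.norm_of_nonneg q0]
    have s0 : lam * (1 - (c0 + c1 + c2 + c3)) * ‖1 + w - 3 / 10 * w ^ 2‖ ≤
        (1 - (c0 + c1 + c2 + c3)) * (k * m) := by
      calc _ ≤ lam * (1 - (c0 + c1 + c2 + c3)) * (g * m) := by gcongr
        _ = (1 - (c0 + c1 + c2 + c3)) * ((lam * g) * m) := by ring
        _ ≤ _ := by
          have : 0 ≤ 1 - (c0 + c1 + c2 + c3) := by linarith
          gcongr
    have s1 : k * c0 ≤ k * c0 * m := le_mul_of_one_le_right (by positivity) hm1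
    have s2 : k * c1 * ‖w‖ ≤ k * c1 * m := by gcongr
    have s3 : k * c2 * (3 / 10) * ‖w‖ ^ 2 ≤ k * c2 * m := by
      rw [mul_assoc (k * c2)]; gcongr
    have s4 : 0 ≤ k * c3 * m := by positivity
    nlinarith
  · have v := hval 1 (by simp)
    simp only [mul_one, c1, cI, cI', cm] at v ⊢
    rw [v]; simp [abs_of_pos hk0]
  · have v := hval I (by simp)
    simp only [I_mul_I, neg_neg, c1, cI, cI', cm] at v ⊢
    rw [v]; simp
  · have v := hval (-1) (by simp)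
    simp only [mul_neg, mul_one, neg_neg, c1, cI, cI', cm] at v ⊢
    rw [v]; simp
  · have v := hval (-I) (by simp)
    simp only [mul_neg, I_mul_I, neg_neg, c1, cI, cI', cm] at v ⊢
    rw [v]; simp

end Pool.Agent.H.MP_58b66c_an
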