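import Mathlib

namespace Pool.Agent.H.MP_58b66c_an

open Complex Finset

noncomputable def rho (i : ℕ) : ℝ := ((i / 2 : ℕ) : ℝ) + 1
def ex (N : ℕ → ℕ) (i : ℕ) : ℕ := ∑ k ∈ range i, N (k / 2)
noncomputable def sg (i : ℕ) : ℂ := if i % 2 = 0 then 1 else -(3 / 10)
noncomputable def cf (N : ℕ → ℕ) (i : ℕ) : ℂ := ∏ k ∈ range i, sg k / (rho k : ℂ) ^ N (k / 2)
noncomputable def tt (N : ℕ → ℕ) (i : ℕ) (r : ℝ) : ℝ := ‖cf N i‖ * r ^ ex N i
noncomputable def dl (j : ℕ) : ℝ := 1 / (2 * ((j : ℝ) + 1))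

/-- the gaps are long enough -/
def Good (D : ℕ) (N : ℕ → ℕ) : Prop :=
  ∀ j, ∃ M, N j = 2 * D + 1 + M ∧ ((2 * (j : ℝ) + 2) / (2 * j + 3)) ^ M ≤ 1 / (8 * ((j : ℝ) + 1))

lemma exists_good (D : ℕ) : ∃ N, Good D N := by
  have : ∀ j : ℕ, ∃ M : ℕ, ((2 * (j : ℝ) + 2) / (2 * j + 3)) ^ M < 1 / (8 * ((j : ℝ) + 1)) := by
    intro j
    refine exists_pow_lt_of_lt_one (by positivity) ?_
    rw [div_lt_one (by positivity)]; linarith
  choose M hM using this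
  exact ⟨fun j => 2 * D + 1 + M j, fun j => ⟨M j, rfl, (hM j).le⟩⟩

lemma rho_pos (i : ℕ) : 0 < rho i := by unfold rho; positivity

lemma sg_le (i : ℕ) : ‖sg i‖ ≤ 1 := by
  unfold sg; split_ifs
  · simp
  · simp; norm_num

lemma sg_ge (i : ℕ) : 3 / 10 ≤ ‖sg i‖ := by
  unfold sg; split_ifs
  · simp; norm_num
  · simp

lemma cf_ne (N : ℕ → ℕ) (i : ℕ) : cf N i ≠ 0 := by
  unfold cf
  refine prod_ne_zero_iff.2 fun k _ => div_ne_zero ?_ (pow_ne_zero _ ?_)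
  · have := sg_ge k
    intro h; rw [h, norm_zero] at this; linarith
  · exact_mod_cast (rho_pos k).ne'

lemma tt_nonneg (N : ℕ → ℕ) (i : ℕ) {r : ℝ} (hr : 0 ≤ r) : 0 ≤ tt N i r := by
  unfold tt; positivity

lemma tt_pos (N : ℕ → ℕ) (i : ℕ) {r : ℝ} (hr : 0 < r) : 0 < tt N i r :=
  mul_pos (norm_pos_iff.2 (cf_ne N i)) (by positivity)

lemma term_succ (N : ℕ → ℕ) (i : ℕ) (z : ℂ) :
    cf N (i + 1) * z ^ ex N (i + 1) =
      cf N i * z ^ ex N i * (sg i * (z / rho i) ^ N (i / 2)) := by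
  unfold cf ex
  rw [prod_range_succ, sum_range_succ, pow_add, div_pow]
  ring

lemma tt_succ (N : ℕ → ℕ) (i : ℕ) {r : ℝ} (hr : 0 ≤ r) :
    tt N (i + 1) r = tt N i r * (‖sg i‖ * (r / rho i) ^ N (i / 2)) := by
  have h := congrArg norm (term_succ N i r)
  simp only [norm_mul, norm_pow, norm_div, Complex.norm_real, Real.norm_eq_abs, abs_of_nonneg hr,
    abs_of_pos (rho_pos i)] at h
  exact h

lemma dl_pos (j : ℕ) : 0 < dl j := by unfold dl; positivity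

lemma dl_le (j : ℕ) : dl j ≤ 1 / 2 := by
  unfold dl
  have : (0 : ℝ) ≤ j := by positivity
  rw [div_le_div_iff₀ (by positivity) (by positivity)]; linarith

lemma dl_anti {j k : ℕ} (h : j ≤ k) : dl k ≤ dl j := by
  unfold dl
  have : (j : ℝ) ≤ k := by exact_mod_cast h
  gcongr

variable {D : ℕ} {N : ℕ → ℕ}

lemma up (hN : Good D N) (i : ℕ) {r : ℝ} (hr : 0 ≤ r) (h : r ≤ ((i / 2 : ℕ) : ℝ) + 1 / 2) :
    tt N (i + 1) r ≤ dl (i / 2) * tt N i r := by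
  rw [tt_succ N i hr, mul_comm]
  refine mul_le_mul_of_nonneg_right ?_ (tt_nonneg N i hr)
  obtain ⟨M, hM, hM'⟩ := hN (i / 2)
  set j := i / 2
  have hj : (0 : ℝ) ≤ j := by positivity
  have h0 : 0 ≤ r / rho i := div_nonneg hr (rho_pos i).le
  have h1 : r / rho i ≤ (2 * (j : ℝ) + 2) / (2 * j + 3) := by
    rw [div_le_div_iff₀ (rho_pos i) (by positivity)]
    unfold rho
    nlinarith
  have h2 : (2 * (j : ℝ) + 2) / (2 * j + 3) ≤ 1 := by
    rw [div_le_one (by positivity)]; linarith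
  calc ‖sg i‖ * (r / rho i) ^ N j ≤ 1 * (r / rho i) ^ M := by
        refine mul_le_mul (sg_le i) (pow_le_pow_of_le_one h0 (h1.trans h2) (by omega))
          (by positivity) zero_le_one
    _ ≤ ((2 * (j : ℝ) + 2) / (2 * j + 3)) ^ M := by rw [one_mul]; gcongr
    _ ≤ 1 / (8 * ((j : ℝ) + 1)) := hM'
    _ ≤ dl j := by unfold dl; gcongr; norm_num

lemma one_le_ratio (i : ℕ) {r : ℝ} (h : ((i / 2 : ℕ) : ℝ) + 3 / 2 ≤ r) : 1 ≤ r / rho i := by
  rw [le_div_iff₀ (rho_pos i)]; unfold rho; linarith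

lemma down (hN : Good D N) (i : ℕ) {r : ℝ} (h : ((i / 2 : ℕ) : ℝ) + 3 / 2 ≤ r) :
    tt N i r * (r / rho i) ^ (2 * D) ≤ dl (i / 2) * tt N (i + 1) r := by
  have h1 := one_le_ratio i h
  obtain ⟨M, hM, hM'⟩ := hN (i / 2)
  have hrho : rho i = ((i / 2 : ℕ) : ℝ) + 1 := rfl
  set j := i / 2
  have hj : (0 : ℝ) ≤ j := by positivity
  have hr : 0 ≤ r := by linarith
  rw [tt_succ N i hr, mul_left_comm]
  refine mul_le_mul_of_nonneg_left ?_ (tt_nonneg N i hr)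
  set s := r / rho i with hs
  have h2 : 1 ≤ (2 * (j : ℝ) + 2) / (2 * j + 3) * s := by
    rw [hs, div_mul_div_comm, le_div_iff₀ (mul_pos (by positivity) (rho_pos i)), hrho]
    nlinarith
  have h3 : 1 ≤ 1 / (8 * ((j : ℝ) + 1)) * s ^ M := by
    calc (1 : ℝ) ≤ ((2 * (j : ℝ) + 2) / (2 * j + 3) * s) ^ M := one_le_pow₀ h2
      _ = ((2 * (j : ℝ) + 2) / (2 * j + 3)) ^ M * s ^ M := mul_pow _ _ _
      _ ≤ _ := by gcongr
  have h4 : 1 / (8 * ((j : ℝ) + 1)) = dl j / 4 := by unfold dl; field_simp; norm_num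
  have h5 := sg_ge i
  have h6 := dl_pos j
  rw [h4] at h3
  have h7 : s ^ N j = s ^ (2 * D) * s * s ^ M := by rw [hM]; ring
  have h8 : 0 ≤ s ^ (2 * D) := by positivity
  have h9 : 0 ≤ s ^ M := by positivity
  have h10 : 1 ≤ dl j * (‖sg i‖ * (s * s ^ M)) := by
    calc (1 : ℝ) ≤ dl j * (3 / 10 * (1 * s ^ M)) := by nlinarith [mul_nonneg h6.le h9]
      _ ≤ _ := by gcongr
  calc s ^ (2 * D) ≤ s ^ (2 * D) * (dl j * (‖sg i‖ * (s * s ^ M))) := le_mul_of_one_le_right h8 h10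
    _ = _ := by rw [h7]; ring

lemma up_tail (hN : Good D N) (K : ℕ) {r : ℝ} (hr : 0 ≤ r) (h : r ≤ (K : ℝ) + 5 / 2) (n : ℕ) :
    tt N (n + (2 * K + 5)) r ≤ dl K * tt N (2 * K + 4) r * (1 / 2) ^ n := by
  have key : ∀ i, 2 * K + 4 ≤ i → r ≤ ((i / 2 : ℕ) : ℝ) + 1 / 2 := by
    intro i hi
    have : ((K + 2 : ℕ) : ℝ) ≤ ((i / 2 : ℕ) : ℝ) := by exact_mod_cast (by omega)
    push_cast at this; linarith
  induction n with
  | zero =>
    have := up hN (2 * K + 4) hr (key _ le_rfl)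
    simp only [zero_add, pow_zero, mul_one]
    refine this.trans ?_
    exact mul_le_mul_of_nonneg_right (dl_anti (by omega)) (tt_nonneg N _ hr)
  | succ n ih =>
    have := up hN (n + (2 * K + 5)) hr (key _ (by omega))
    rw [show n + 1 + (2 * K + 5) = n + (2 * K + 5) + 1 by ring]
    refine this.trans ?_
    calc _ ≤ 1 / 2 * (dl K * tt N (2 * K + 4) r * (1 / 2) ^ n) :=
          mul_le_mul (dl_le _) ih (tt_nonneg N _ hr) (by norm_num)
      _ = _ := by ring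

lemma down_tail (hN : Good D N) (K : ℕ) {r : ℝ} (h : (K : ℝ) + 3 / 2 ≤ r) (n : ℕ) :
    ∀ i, i + n = 2 * K + 1 →
      tt N i r * (r / rho i) ^ (2 * D) ≤ dl K * tt N (2 * K + 2) r * (1 / 2) ^ n := by
  have hK : (0 : ℝ) ≤ K := by positivity
  have hr : 0 ≤ r := by linarith
  have key : ∀ i, i ≤ 2 * K + 1 → ((i / 2 : ℕ) : ℝ) + 3 / 2 ≤ r := by
    intro i hi
    have : ((i / 2 : ℕ) : ℝ) ≤ (K : ℝ) := by exact_mod_cast (by omega)
    linarith
  induction n with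
  | zero =>
    intro i hi
    obtain rfl : i = 2 * K + 1 := by omega
    have := down hN (2 * K + 1) (key _ le_rfl)
    rw [show (2 * K + 1) / 2 = K by omega] at this
    simpa using this
  | succ n ih =>
    intro i hi
    have h1 := down hN i (key _ (by omega))
    have h2 := ih (i + 1) (by omega)
    have h3 : tt N (i + 1) r ≤ tt N (i + 1) r * (r / rho (i + 1)) ^ (2 * D) :=
      le_mul_of_one_le_right (tt_nonneg N _ hr) (one_le_pow₀ (one_le_ratio _ (key _ (by omega))))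
    refine h1.trans ?_
    calc _ ≤ 1 / 2 * (dl K * tt N (2 * K + 2) r * (1 / 2) ^ n) :=
          mul_le_mul (dl_le _) (h3.trans h2) (tt_nonneg N _ hr) (by norm_num)
      _ = _ := by ring

/-- coefficient of the `l`-th monomial of the `i`-th cluster -/
noncomputable def co (N : ℕ → ℕ) (q : ℕ → ℂ) (i l : ℕ) : ℂ := cf N i * q l * (I ^ i / rho i) ^ l

lemma co_norm (q : ℕ → ℂ) (i l : ℕ) (r : ℝ) :
    ‖co N q i l‖ * r ^ (ex N i + l) = tt N i r * (‖q l‖ * (r / rho i) ^ l) := by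
  unfold co tt
  simp only [norm_mul, norm_pow, norm_div, norm_I, one_pow, Complex.norm_real, Real.norm_eq_abs,
    abs_of_pos (rho_pos i), div_pow, pow_add]
  ring

/-- absolute size of the `i`-th cluster -/
noncomputable def Eb (D : ℕ) (N : ℕ → ℕ) (q : ℕ → ℂ) (i : ℕ) (r : ℝ) : ℝ :=
  ∑ l ∈ range (2 * D + 1), ‖co N q i l‖ * r ^ (ex N i + l)

lemma Eb_nonneg (q : ℕ → ℂ) (i : ℕ) {r : ℝ} (hr : 0 ≤ r) : 0 ≤ Eb D N q i r :=
  sum_nonneg fun l _ => by positivity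

lemma Eb_le {q : ℕ → ℂ} (hq : ∀ l, ‖q l‖ ≤ 1) (i : ℕ) {r B : ℝ} (hr : 0 ≤ r)
    (h : ∀ l ≤ 2 * D, (r / rho i) ^ l ≤ B) : Eb D N q i r ≤ (2 * D + 1) * (tt N i r * B) := by
  have : ∀ l ∈ range (2 * D + 1), ‖co N q i l‖ * r ^ (ex N i + l) ≤ tt N i r * B := by
    intro l hl
    rw [co_norm]
    refine mul_le_mul_of_nonneg_left ?_ (tt_nonneg N _ hr)
    have h0 : 0 ≤ (r / rho i) ^ l := pow_nonneg (div_nonneg hr (rho_pos i).le) _
    exact (mul_le_of_le_one_left h0 (hq l)).trans (h l (Nat.lt_succ_iff.1 (mem_range.1 hl)))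
  unfold Eb
  simpa using sum_le_card_nsmul _ _ _ this

lemma Eb_up (hN : Good D N) {q : ℕ → ℂ} (hq : ∀ l, ‖q l‖ ≤ 1) (K : ℕ) {r : ℝ} (hr : 0 ≤ r)
    (h : r ≤ (K : ℝ) + 5 / 2) (n : ℕ) :
    Eb D N q (n + (2 * K + 5)) r ≤ (2 * D + 1) * dl K * tt N (2 * K + 4) r * (1 / 2) ^ n := by
  have h1 : r / rho (n + (2 * K + 5)) ≤ 1 := by
    rw [div_le_one (rho_pos _)]
    have : ((K + 2 : ℕ) : ℝ) ≤ (((n + (2 * K + 5)) / 2 : ℕ) : ℝ) := by exact_mod_cast (by omega)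
    unfold rho
    push_cast at this; linarith
  refine (Eb_le hq _ hr (B := 1) fun l _ =>
    pow_le_one₀ (div_nonneg hr (rho_pos _).le) h1).trans ?_
  have := up_tail hN K hr h n
  calc _ ≤ (2 * D + 1) * (dl K * tt N (2 * K + 4) r * (1 / 2) ^ n) := by rw [mul_one]; gcongr
    _ = _ := by ring

lemma Eb_down (hN : Good D N) {q : ℕ → ℂ} (hq : ∀ l, ‖q l‖ ≤ 1) (K : ℕ) {r : ℝ}
    (h : (K : ℝ) + 3 / 2 ≤ r) (i : ℕ) (hi : i < 2 * K + 2) :
    Eb D N q i r ≤ (2 * D + 1) * dl K * tt N (2 * K + 2) r * (1 / 2) ^ (2 * K + 2 - 1 - i) := by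
  have hK : (0 : ℝ) ≤ K := by positivity
  have hr : 0 ≤ r := by linarith
  have h1 : 1 ≤ r / rho i := by
    refine one_le_ratio _ ?_
    have : ((i / 2 : ℕ) : ℝ) ≤ (K : ℝ) := by exact_mod_cast (by omega)
    linarith
  refine (Eb_le hq _ hr (B := (r / rho i) ^ (2 * D)) fun l hl => pow_le_pow_right₀ h1 hl).trans ?_
  have := down_tail hN K h (2 * K + 2 - 1 - i) i (by omega)
  calc _ ≤ (2 * D + 1) * (dl K * tt N (2 * K + 2) r * (1 / 2) ^ (2 * K + 2 - 1 - i)) := by gcongr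
    _ = _ := by ring

lemma Eb_summable (hN : Good D N) {q : ℕ → ℂ} (hq : ∀ l, ‖q l‖ ≤ 1) {r : ℝ} (hr : 0 ≤ r) :
    Summable fun i => Eb D N q i r := by
  obtain ⟨K, hK⟩ := exists_nat_ge r
  rw [← summable_nat_add_iff (2 * K + 5)]
  exact Summable.of_nonneg_of_le (fun n => Eb_nonneg q _ hr)
    (Eb_up hN hq K hr (by linarith)) (summable_geometric_two.mul_left _)

lemma Eb_up_sum (hN : Good D N) {q : ℕ → ℂ} (hq : ∀ l, ‖q l‖ ≤ 1) (K : ℕ) {r : ℝ} (hr : 0 ≤ r)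
    (h : r ≤ (K : ℝ) + 5 / 2) :
    ∑' n, Eb D N q (n + (2 * K + 5)) r ≤ 2 * ((2 * D + 1) * dl K * tt N (2 * K + 4) r) := by
  refine (((summable_nat_add_iff (2 * K + 5)).2 (Eb_summable hN hq hr)).tsum_le_tsum
    (Eb_up hN hq K hr h) (summable_geometric_two.mul_left _)).trans ?_
  rw [tsum_mul_left, tsum_geometric_two, mul_comm]

lemma Eb_down_sum (hN : Good D N) {q : ℕ → ℂ} (hq : ∀ l, ‖q l‖ ≤ 1) (K : ℕ) {r : ℝ}
    (h : (K : ℝ) + 3 / 2 ≤ r) :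
    ∑ i ∈ range (2 * K + 2), Eb D N q i r ≤ 2 * ((2 * D + 1) * dl K * tt N (2 * K + 2) r) := by
  have hK : (0 : ℝ) ≤ K := by positivity
  have hr : 0 ≤ r := by linarith
  refine (sum_le_sum fun i hi => Eb_down hN hq K h i (mem_range.1 hi)).trans ?_
  rw [← mul_sum, sum_range_reflect (fun i => (1 / 2 : ℝ) ^ i), mul_comm]
  refine mul_le_mul_of_nonneg_right (sum_geometric_two_le _) ?_
  have := dl_pos K
  have := tt_nonneg N (2 * K + 2) hr
  positivity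

lemma ex_mono (hN : Good D N) {i k : ℕ} (h : i < k) : ex N i + (2 * D + 1) ≤ ex N k := by
  have h1 : ex N (i + 1) ≤ ex N k := sum_le_sum_of_subset (range_subset_range.2 h)
  have h2 : ex N (i + 1) = ex N i + N (i / 2) := sum_range_succ _ _
  obtain ⟨M, hM, -⟩ := hN (i / 2)
  omega

lemma idx_inj (hN : Good D N) :
    Function.Injective fun p : ℕ × Fin (2 * D + 1) => ex N p.1 + (p.2 : ℕ) := by
  rintro ⟨i, l⟩ ⟨k, m⟩ h
  simp only at h
  have hl := l.2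
  have hm := m.2
  rcases lt_trichotomy i k with h1 | h1 | h1
  · have := ex_mono hN h1; omega
  · subst h1
    have : l = m := Fin.ext (by omega)
    rw [this]
  · have := ex_mono hN h1; omega

end Pool.Agent.H.MP_58b66c_an
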