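import Mathlib
import Pool.Agent.H.MP_58b66c_an.A
import Pool.Agent.H.MP_58b66c_an.B

namespace Pool.Agent.H.MP_58b66c_an

open Complex Finset Filter Topology

variable {D : ℕ} {N : ℕ → ℕ} {q : ℕ → ℂ} {Q : ℂ → ℂ}

/-- Taylor coefficients -/
noncomputable def aa (D : ℕ) (N : ℕ → ℕ) (q : ℕ → ℂ) : ℕ → ℂ :=
  Function.extend (fun p : ℕ × Fin (2 * D + 1) => ex N p.1 + (p.2 : ℕ))
    (fun p => co N q p.1 p.2) 0

lemma aa_idx (hN : Good D N) (i : ℕ) (l : ℕ) (hl : l < 2 * D + 1) :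
    aa D N q (ex N i + l) = co N q i l :=
  (idx_inj hN).extend_apply (fun p => co N q p.1 p.2) 0 (i, ⟨l, hl⟩)

lemma aa_cases (hN : Good D N) (n : ℕ) : aa D N q n = 0 ∨
    ∃ i l, l < 2 * D + 1 ∧ n = ex N i + l ∧ aa D N q n = co N q i l := by
  by_cases h : ∃ p : ℕ × Fin (2 * D + 1), ex N p.1 + (p.2 : ℕ) = n
  · obtain ⟨⟨i, l⟩, rfl⟩ := h
    exact Or.inr ⟨i, l, l.2, rfl, aa_idx hN i l l.2⟩
  · left
    unfold aa
    rw [Function.extend_apply' _ _ _ h]; rfl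

/-- the clusters -/
noncomputable def PP (N : ℕ → ℕ) (Q : ℂ → ℂ) (i : ℕ) (z : ℂ) : ℂ :=
  cf N i * z ^ ex N i * Q (I ^ i * z / rho i)

lemma PP_eq (hQ : ∀ z, Q z = ∑ l ∈ range (2 * D + 1), q l * z ^ l) (i : ℕ) (z : ℂ) :
    PP N Q i z = ∑ l ∈ range (2 * D + 1), co N q i l * z ^ (ex N i + l) := by
  unfold PP co
  rw [hQ, mul_sum]
  refine sum_congr rfl fun l _ => ?_
  rw [pow_add, mul_div_right_comm, mul_pow]
  ring

lemma PP_norm (hQ : ∀ z, Q z = ∑ l ∈ range (2 * D + 1), q l * z ^ l) (i : ℕ) (z : ℂ) :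
    ‖PP N Q i z‖ ≤ Eb D N q i ‖z‖ := by
  rw [PP_eq hQ]
  refine (norm_sum_le _ _).trans (le_of_eq ?_)
  simp [Eb]

lemma prod_summable (hN : Good D N) (hq : ∀ l, ‖q l‖ ≤ 1) {r : ℝ} (hr : 0 ≤ r) :
    Summable fun p : ℕ × Fin (2 * D + 1) => ‖co N q p.1 p.2‖ * r ^ (ex N p.1 + p.2) := by
  rw [summable_prod_of_nonneg (fun p => by positivity)]
  refine ⟨fun i => (hasSum_fintype _).summable, ?_⟩
  refine (Eb_summable hN hq hr).congr fun i => ?_
  rw [tsum_fintype, Eb, sum_range]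

lemma aa_summable (hN : Good D N) (hq : ∀ l, ‖q l‖ ≤ 1) {r : ℝ} (hr : 0 ≤ r) :
    Summable fun n => ‖aa D N q n‖ * r ^ n := by
  rw [← (idx_inj hN).summable_iff]
  · refine (prod_summable hN hq hr).congr fun p => ?_
    simp only [Function.comp]
    rw [aa_idx hN p.1 p.2 p.2.2]
  · intro n hn
    rcases aa_cases (q := q) hN n with h | ⟨i, l, hl, rfl, -⟩
    · simp [h]
    · exact absurd ⟨(i, ⟨l, hl⟩), rfl⟩ hn

lemma aa_hasSum (hN : Good D N) (hq : ∀ l, ‖q l‖ ≤ 1)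
    (hQ : ∀ z, Q z = ∑ l ∈ range (2 * D + 1), q l * z ^ l) (z : ℂ) :
    HasSum (fun n => aa D N q n * z ^ n) (∑' i, PP N Q i z) := by
  have hs : Summable fun p : ℕ × Fin (2 * D + 1) => co N q p.1 p.2 * z ^ (ex N p.1 + p.2) :=
    Summable.of_norm (by simpa using prod_summable hN hq (norm_nonneg z))
  have h1 : HasSum (fun i => PP N Q i z)
      (∑' p : ℕ × Fin (2 * D + 1), co N q p.1 p.2 * z ^ (ex N p.1 + p.2)) := by
    refine hs.hasSum.prod_fiberwise fun i => ?_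
    rw [PP_eq hQ, sum_range]
    exact hasSum_fintype _
  rw [h1.tsum_eq, ← (idx_inj hN).hasSum_iff]
  · convert hs.hasSum using 1
    funext p
    simp only [Function.comp]
    rw [aa_idx hN p.1 p.2 p.2.2]
  · intro n hn
    rcases aa_cases (q := q) hN n with h | ⟨i, l, hl, rfl, -⟩
    · simp [h]
    · exact absurd ⟨(i, ⟨l, hl⟩), rfl⟩ hn

/-- radial distortion -/
noncomputable def Om (D : ℕ) (s : ℝ) : ℝ := ∑ l ∈ range (2 * D + 1), |s ^ l - 1|

lemma Om_nonneg (s : ℝ) : 0 ≤ Om D s := sum_nonneg fun _ _ => abs_nonneg _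

lemma le_Om (s : ℝ) {l : ℕ} (hl : l < 2 * D + 1) : |s ^ l - 1| ≤ Om D s :=
  single_le_sum (f := fun l => |s ^ l - 1|) (fun _ _ => abs_nonneg _) (mem_range.2 hl)

lemma Q_dist (hq : ∀ l, ‖q l‖ ≤ 1) (hQ : ∀ z, Q z = ∑ l ∈ range (2 * D + 1), q l * z ^ l)
    (v : ℂ) (hv : ‖v‖ = 1) (s : ℝ) : ‖Q (v * s) - Q v‖ ≤ Om D s := by
  rw [hQ, hQ, ← sum_sub_distrib]
  refine (norm_sum_le _ _).trans (sum_le_sum fun l _ => ?_)
  have : q l * (v * s) ^ l - q l * v ^ l = q l * (v ^ l * ((s ^ l - 1 : ℝ) : ℂ)) := by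
    push_cast; ring
  rw [this, norm_mul, norm_mul, norm_pow, hv, one_pow, one_mul, Complex.norm_real,
    Real.norm_eq_abs]
  exact mul_le_of_le_one_left (abs_nonneg _) (hq l)

lemma PP_dist (hq : ∀ l, ‖q l‖ ≤ 1) (hQ : ∀ z, Q z = ∑ l ∈ range (2 * D + 1), q l * z ^ l)
    (i : ℕ) (z : ℂ) (hz : z ≠ 0) :
    ‖PP N Q i z - cf N i * z ^ ex N i * Q (I ^ i * z / ‖z‖)‖ ≤
      tt N i ‖z‖ * Om D (‖z‖ / rho i) := by
  have hz' : (‖z‖ : ℂ) ≠ 0 := by exact_mod_cast norm_ne_zero_iff.2 hz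
  unfold PP tt
  rw [← mul_sub, norm_mul, norm_mul, norm_pow]
  refine mul_le_mul_of_nonneg_left ?_ (by positivity)
  have : I ^ i * z / rho i = I ^ i * z / ‖z‖ * ((‖z‖ / rho i : ℝ) : ℂ) := by
    push_cast; field_simp
  rw [this]
  refine Q_dist hq hQ _ ?_ _
  simp [norm_ne_zero_iff.2 hz]

/-- total relative error in the window `K` -/
noncomputable def er (D K : ℕ) (r : ℝ) : ℝ :=
  2 * Om D (r / (K + 2)) + Om D (r / (K + 3)) + 4 * ((2 * D + 1) * dl K)

/-- largest skeleton term in the window `K` -/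
noncomputable def mu (N : ℕ → ℕ) (K : ℕ) (r : ℝ) : ℝ :=
  tt N (2 * K + 2) r * max 1 (max ((r / (K + 2)) ^ N (K + 1)) (3 / 10 * ((r / (K + 2)) ^ N (K + 1)) ^ 2))

lemma rho2 (K : ℕ) : rho (2 * K + 2) = K + 2 := by
  unfold rho; rw [show (2 * K + 2) / 2 = K + 1 by omega]; push_cast; ring
lemma rho3 (K : ℕ) : rho (2 * K + 3) = K + 2 := by
  unfold rho; rw [show (2 * K + 3) / 2 = K + 1 by omega]; push_cast; ring
lemma rho4 (K : ℕ) : rho (2 * K + 4) = K + 3 := by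
  unfold rho; rw [show (2 * K + 4) / 2 = K + 2 by omega]; push_cast; ring
lemma sg2 (K : ℕ) : sg (2 * K + 2) = 1 := by
  unfold sg; rw [if_pos (by omega)]
lemma sg3 (K : ℕ) : sg (2 * K + 3) = -(3 / 10) := by
  unfold sg; rw [if_neg (by omega)]

lemma tt3 (K : ℕ) {r : ℝ} (hr : 0 ≤ r) :
    tt N (2 * K + 3) r = tt N (2 * K + 2) r * (r / (K + 2)) ^ N (K + 1) := by
  rw [tt_succ N (2 * K + 2) hr, sg2, rho2, show (2 * K + 2) / 2 = K + 1 by omega]; simp

lemma tt4 (K : ℕ) {r : ℝ} (hr : 0 ≤ r) :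
    tt N (2 * K + 4) r = tt N (2 * K + 2) r * (3 / 10 * ((r / (K + 2)) ^ N (K + 1)) ^ 2) := by
  rw [tt_succ N (2 * K + 3) hr, tt3 K hr, sg3, rho3, show (2 * K + 3) / 2 = K + 1 by omega]
  simp; ring

lemma tt2_le (K : ℕ) {r : ℝ} (hr : 0 ≤ r) : tt N (2 * K + 2) r ≤ mu N K r :=
  le_mul_of_one_le_right (tt_nonneg N _ hr) (le_max_left _ _)
lemma tt3_le (K : ℕ) {r : ℝ} (hr : 0 ≤ r) : tt N (2 * K + 3) r ≤ mu N K r := by
  rw [tt3 K hr]
  exact mul_le_mul_of_nonneg_left ((le_max_left _ _).trans (le_max_right _ _)) (tt_nonneg N _ hr)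
lemma tt4_le (K : ℕ) {r : ℝ} (hr : 0 ≤ r) : tt N (2 * K + 4) r ≤ mu N K r := by
  rw [tt4 K hr]
  exact mul_le_mul_of_nonneg_left ((le_max_right _ _).trans (le_max_right _ _)) (tt_nonneg N _ hr)

lemma mu_cases (K : ℕ) {r : ℝ} (hr : 0 ≤ r) : mu N K r = tt N (2 * K + 2) r ∨
    mu N K r = tt N (2 * K + 3) r ∨ mu N K r = tt N (2 * K + 4) r := by
  rw [tt3 K hr, tt4 K hr]
  unfold mu
  rcases max_choice 1 (max ((r / (K + 2)) ^ N (K + 1)) (3 / 10 * ((r / (K + 2)) ^ N (K + 1)) ^ 2))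
    with h | h
  · left; rw [h, mul_one]
  · right
    rw [h]
    rcases max_choice ((r / (K + 2)) ^ N (K + 1)) (3 / 10 * ((r / (K + 2)) ^ N (K + 1)) ^ 2)
      with h' | h'
    · left; rw [h']
    · right; rw [h']

lemma main_est (hN : Good D N) (hq : ∀ l, ‖q l‖ ≤ 1)
    (hQ : ∀ z, Q z = ∑ l ∈ range (2 * D + 1), q l * z ^ l) (K : ℕ) (z : ℂ)
    (h1 : (K : ℝ) + 3 / 2 ≤ ‖z‖) (h2 : ‖z‖ ≤ (K : ℝ) + 5 / 2) :
    ‖(∑' i, PP N Q i z) - cf N (2 * K + 2) * z ^ ex N (2 * K + 2) *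
      (Q (I ^ (2 * K + 2) * z / ‖z‖) + Q (I * (I ^ (2 * K + 2) * z / ‖z‖)) * (z / (K + 2)) ^ N (K + 1)
        - (3 / 10 : ℂ) * (Q (-(I ^ (2 * K + 2) * z / ‖z‖)) * ((z / (K + 2)) ^ N (K + 1)) ^ 2))‖ ≤
      er D K ‖z‖ * mu N K ‖z‖ := by
  have hK : (0 : ℝ) ≤ K := by positivity
  have hr : 0 ≤ ‖z‖ := norm_nonneg z
  have hz : z ≠ 0 := by intro h; rw [h, norm_zero] at h1; linarith
  have hE := Eb_summable hN hq hr
  have hs : Summable fun i => PP N Q i z := Summable.of_norm_bounded hE (PP_norm hQ · z)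
  rw [← hs.sum_add_tsum_nat_add (2 * K + 5), sum_range_succ, sum_range_succ, sum_range_succ]
  have a0 : ‖∑ i ∈ range (2 * K + 2), PP N Q i z‖ ≤
      2 * ((2 * D + 1) * dl K * tt N (2 * K + 2) ‖z‖) :=
    ((norm_sum_le _ _).trans (sum_le_sum fun i _ => PP_norm hQ i z)).trans (Eb_down_sum hN hq K h1)
  have a5 : ‖∑' i, PP N Q (i + (2 * K + 5)) z‖ ≤ 2 * ((2 * D + 1) * dl K * tt N (2 * K + 4) ‖z‖) :=
    (tsum_of_norm_bounded ((summable_nat_add_iff (2 * K + 5)).2 hE).hasSum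
      (fun i => PP_norm hQ _ z)).trans (Eb_up_sum hN hq K hr h2)
  have a2 := PP_dist (N := N) hq hQ (2 * K + 2) z hz
  have a3 := PP_dist (N := N) hq hQ (2 * K + 3) z hz
  have a4 := PP_dist (N := N) hq hQ (2 * K + 4) z hz
  have b3 := term_succ N (2 * K + 2) z
  have b4 := term_succ N (2 * K + 3) z
  rw [sg2, rho2, show (2 * K + 2) / 2 = K + 1 by omega] at b3
  rw [sg3, rho3, show (2 * K + 3) / 2 = K + 1 by omega, b3] at b4
  have c3 : I ^ (2 * K + 3) * z / ‖z‖ = I * (I ^ (2 * K + 2) * z / ‖z‖) := by ring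
  have c4 : I ^ (2 * K + 4) * z / ‖z‖ = -(I ^ (2 * K + 2) * z / ‖z‖) := by
    rw [show 2 * K + 4 = (2 * K + 2) + 2 by ring, pow_add I (2 * K + 2) 2, I_sq]; ring
  rw [rho2] at a2
  rw [rho3, b3, c3] at a3
  rw [rho4, b4, c4] at a4
  push_cast at a3 a4
  set T := cf N (2 * K + 2) * z ^ ex N (2 * K + 2)
  set v := I ^ (2 * K + 2) * z / ‖z‖
  set w := (z / (K + 2)) ^ N (K + 1)
  have e : ∑ i ∈ range (2 * K + 2), PP N Q i z + PP N Q (2 * K + 2) z + PP N Q (2 * K + 3) z +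
      PP N Q (2 * K + 4) z + ∑' i, PP N Q (i + (2 * K + 5)) z -
      T * (Q v + Q (I * v) * w - 3 / 10 * (Q (-v) * w ^ 2)) =
      (∑ i ∈ range (2 * K + 2), PP N Q i z + ∑' i, PP N Q (i + (2 * K + 5)) z) +
      ((PP N Q (2 * K + 2) z - T * Q v) + (PP N Q (2 * K + 3) z - T * (1 * w) * Q (I * v)) +
        (PP N Q (2 * K + 4) z - T * (1 * w) * (-(3 / 10) * w) * Q (-v))) := by ring
  rw [e]
  refine (norm_add_le _ _).trans ((add_le_add (norm_add_le _ _) norm_add₃_le).trans ?_)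
  have m2 := tt2_le (N := N) K hr
  have m3 := tt3_le (N := N) K hr
  have m4 := tt4_le (N := N) K hr
  have o2 := Om_nonneg (D := D) (‖z‖ / (K + 2))
  have o3 := Om_nonneg (D := D) (‖z‖ / (K + 3))
  have d0 : 0 ≤ (2 * (D : ℝ) + 1) * dl K := mul_nonneg (by positivity) (dl_pos K).le
  unfold er
  nlinarith [mul_le_mul_of_nonneg_left m2 o2, mul_le_mul_of_nonneg_left m3 o2,
    mul_le_mul_of_nonneg_left m4 o3, mul_le_mul_of_nonneg_left m2 d0,
    mul_le_mul_of_nonneg_left m4 d0]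

lemma er_nonneg (K : ℕ) (r : ℝ) : 0 ≤ er D K r := by
  have o2 := Om_nonneg (D := D) (r / (K + 2))
  have o3 := Om_nonneg (D := D) (r / (K + 3))
  have d0 : 0 ≤ (2 * (D : ℝ) + 1) * dl K := mul_nonneg (by positivity) (dl_pos K).le
  unfold er; linarith

lemma coef_upper (hN : Good D N) (hq : ∀ l, ‖q l‖ ≤ 1) (K : ℕ) {r : ℝ}
    (h1 : (K : ℝ) + 3 / 2 ≤ r) (h2 : r ≤ (K : ℝ) + 5 / 2) (n : ℕ) :
    ‖aa D N q n‖ * r ^ n ≤ (1 + er D K r) * mu N K r := by
  have hK : (0 : ℝ) ≤ K := by positivity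
  have hr : 0 ≤ r := by linarith
  have m2 := tt2_le (N := N) K hr
  have m3 := tt3_le (N := N) K hr
  have m4 := tt4_le (N := N) K hr
  have m0 : 0 ≤ mu N K r := (tt_nonneg N _ hr).trans m2
  have o2 := Om_nonneg (D := D) (r / (K + 2))
  have o3 := Om_nonneg (D := D) (r / (K + 3))
  have d0 : 0 ≤ (2 * (D : ℝ) + 1) * dl K := mul_nonneg (by positivity) (dl_pos K).le
  have e0 := er_nonneg (D := D) K r
  rcases aa_cases (q := q) hN n with h | ⟨i, l, hl, rfl, h⟩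
  · rw [h, norm_zero, zero_mul]; positivity
  rw [h]
  have hle : ‖co N q i l‖ * r ^ (ex N i + l) ≤ Eb D N q i r :=
    single_le_sum (f := fun l => ‖co N q i l‖ * r ^ (ex N i + l)) (fun _ _ => by positivity)
      (mem_range.2 hl)
  have hmain : tt N i r ≤ mu N K r → Om D (r / rho i) ≤ er D K r →
      ‖co N q i l‖ * r ^ (ex N i + l) ≤ (1 + er D K r) * mu N K r := by
    intro t1 t2
    rw [co_norm, mul_comm]
    refine mul_le_mul ?_ t1 (tt_nonneg N _ hr) (by positivity)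
    have h0 : 0 ≤ (r / rho i) ^ l := pow_nonneg (div_nonneg hr (rho_pos i).le) _
    have := (abs_le.1 (le_Om (r / rho i) hl)).2
    have := mul_le_of_le_one_left h0 (hq l)
    linarith
  by_cases c1 : i < 2 * K + 2
  · refine hle.trans ((Eb_down hN hq K h1 i c1).trans ?_)
    have p1 : ((1 : ℝ) / 2) ^ (2 * K + 2 - 1 - i) ≤ 1 := pow_le_one₀ (by norm_num) (by norm_num)
    calc _ ≤ (2 * D + 1) * dl K * mu N K r * 1 := by gcongr
      _ ≤ _ := by
        rw [mul_one]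
        refine mul_le_mul_of_nonneg_right ?_ m0
        unfold er; linarith
  by_cases c2 : 2 * K + 5 ≤ i
  · obtain ⟨n, rfl⟩ : ∃ n, i = n + (2 * K + 5) := ⟨i - (2 * K + 5), by omega⟩
    refine hle.trans ((Eb_up hN hq K hr h2 n).trans ?_)
    have p1 : ((1 : ℝ) / 2) ^ n ≤ 1 := pow_le_one₀ (by norm_num) (by norm_num)
    calc _ ≤ (2 * D + 1) * dl K * mu N K r * 1 := by gcongr
      _ ≤ _ := by
        rw [mul_one]
        refine mul_le_mul_of_nonneg_right ?_ m0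
        unfold er; linarith
  have : i = 2 * K + 2 ∨ i = 2 * K + 3 ∨ i = 2 * K + 4 := by omega
  rcases this with rfl | rfl | rfl
  · exact hmain m2 (by rw [rho2]; unfold er; linarith)
  · exact hmain m3 (by rw [rho3]; unfold er; linarith)
  · exact hmain m4 (by rw [rho4]; unfold er; linarith)

lemma coef_lower (hN : Good D N) (hD : q D = 1) (K : ℕ) {r : ℝ} (hr : 0 ≤ r) :
    ∃ n, (1 - er D K r) * mu N K r ≤ ‖aa D N q n‖ * r ^ n := by
  have o2 := Om_nonneg (D := D) (r / (K + 2))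
  have o3 := Om_nonneg (D := D) (r / (K + 3))
  have d0 : 0 ≤ (2 * (D : ℝ) + 1) * dl K := mul_nonneg (by positivity) (dl_pos K).le
  have hmain : ∀ i, mu N K r = tt N i r → Om D (r / rho i) ≤ er D K r →
      ∃ n, (1 - er D K r) * mu N K r ≤ ‖aa D N q n‖ * r ^ n := by
    intro i t1 t2
    refine ⟨ex N i + D, ?_⟩
    rw [aa_idx hN i D (by omega), co_norm, hD, t1, mul_comm, norm_one, one_mul]
    refine mul_le_mul_of_nonneg_left ?_ (tt_nonneg N _ hr)
    have := (abs_le.1 (le_Om (D := D) (l := D) (r / rho i) (by omega))).1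
    linarith
  rcases mu_cases (N := N) K hr with h | h | h
  · exact hmain _ h (by rw [rho2]; unfold er; linarith)
  · exact hmain _ h (by rw [rho3]; unfold er; linarith)
  · exact hmain _ h (by rw [rho4]; unfold er; linarith)

lemma er_tendsto : Tendsto (fun r : ℝ => er D ⌊r - 3 / 2⌋₊ r) atTop (𝓝 0) := by
  have hK : Tendsto (fun r : ℝ => ⌊r - 3 / 2⌋₊) atTop atTop :=
    tendsto_nat_floor_atTop.comp (tendsto_atTop_add_const_right _ (-(3 / 2)) tendsto_id)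
  have hK' : Tendsto (fun r : ℝ => ((⌊r - 3 / 2⌋₊ : ℕ) : ℝ)) atTop atTop :=
    tendsto_natCast_atTop_atTop.comp hK
  have hOm : Tendsto (Om D) (𝓝 1) (𝓝 0) := by
    have : Continuous (Om D) := by unfold Om; fun_prop
    have h := this.tendsto 1
    simpa [Om] using h
  have hs : ∀ c : ℝ, 2 ≤ c → c ≤ 3 →
      Tendsto (fun r : ℝ => r / (((⌊r - 3 / 2⌋₊ : ℕ) : ℝ) + c)) atTop (𝓝 1) := by
    intro c hc hc'
    have hi : Tendsto (fun r : ℝ => 2 * (((⌊r - 3 / 2⌋₊ : ℕ) : ℝ) + c)⁻¹) atTop (𝓝 (2 * 0)) :=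
      (tendsto_inv_atTop_zero.comp (tendsto_atTop_add_const_right _ c hK')).const_mul 2
    refine tendsto_of_tendsto_of_tendsto_of_le_of_le' (g := fun r : ℝ =>
      1 - 2 * (((⌊r - 3 / 2⌋₊ : ℕ) : ℝ) + c)⁻¹) (h := fun r : ℝ =>
      1 + 2 * (((⌊r - 3 / 2⌋₊ : ℕ) : ℝ) + c)⁻¹) (by simpa using hi.const_sub 1)
      (by simpa using hi.const_add 1) ?_ ?_
    · filter_upwards [eventually_ge_atTop (3 / 2 : ℝ)] with r hr
      have f1 := Nat.floor_le (a := r - 3 / 2) (by linarith)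
      have hp : 0 < ((⌊r - 3 / 2⌋₊ : ℕ) : ℝ) + c := by positivity
      rw [le_div_iff₀ hp, sub_mul, mul_assoc, inv_mul_cancel₀ hp.ne']
      linarith
    · filter_upwards [eventually_ge_atTop (3 / 2 : ℝ)] with r hr
      have f2 := Nat.lt_floor_add_one (r - 3 / 2)
      have hp : 0 < ((⌊r - 3 / 2⌋₊ : ℕ) : ℝ) + c := by positivity
      rw [div_le_iff₀ hp, add_mul, mul_assoc, inv_mul_cancel₀ hp.ne']
      linarith
  have hd : Tendsto (fun r : ℝ => dl ⌊r - 3 / 2⌋₊) atTop (𝓝 0) := by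
    unfold dl
    simp only [one_div]
    exact tendsto_inv_atTop_zero.comp
      ((tendsto_atTop_add_const_right _ 1 hK').const_mul_atTop (by norm_num))
  have := (((hOm.comp (hs 2 le_rfl (by norm_num))).const_mul 2).add
    (hOm.comp (hs 3 (by norm_num) le_rfl))).add ((hd.const_mul (2 * (D : ℝ) + 1)).const_mul 4)
  simpa [er] using this

theorem exists_entire (C : ℝ) (hC : 0 < C) (hC' : 1859 * C ^ 2 < 600) :
    ∃ (f : ℂ → ℂ) (a : ℕ → ℂ) (m M : ℝ → ℝ), Differentiable ℂ f ∧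
      (∀ z, HasSum (fun n => a n * z ^ n) (f z)) ∧ {n | a n ≠ 0}.Infinite ∧
      (∀ r, 0 < r → IsLUB (Set.range fun n => ‖a n‖ * r ^ n) (m r)) ∧
      (∀ r, 0 < r → IsLUB ((fun z => ‖f z‖) '' Metric.sphere 0 r) (M r)) ∧
      Tendsto (fun r => m r / M r) atTop (𝓝 C) := by
  set k := C⁻¹ with hk
  have hk0 : 0 < k := by positivity
  have hk2 : 1859 / 600 < k ^ 2 := by
    rw [hk, inv_pow, lt_inv_comm₀ (by norm_num) (by positivity)]
    norm_num; linarith
  obtain ⟨D, q, Q, hQ, hD, hq, hU, hQ1, hQ2, hQ3, hQ4⟩ := bump k hk0 hk2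
  obtain ⟨N, hN⟩ := exists_good D
  have hsum := aa_hasSum hN hq hQ
  set f : ℂ → ℂ := fun z => ∑' i, PP N Q i z with hf
  set a := aa D N q with ha
  have hm : ∀ r : ℝ, 0 < r → IsLUB (Set.range fun n => ‖a n‖ * r ^ n)
      (sSup (Set.range fun n => ‖a n‖ * r ^ n)) := by
    intro r hr
    refine isLUB_csSup (Set.range_nonempty _) ⟨∑' n, ‖a n‖ * r ^ n, ?_⟩
    rintro _ ⟨n, rfl⟩
    exact (aa_summable hN hq hr.le).le_tsum n fun _ _ => by positivity
  have hM : ∀ r : ℝ, 0 < r → IsLUB ((fun z => ‖f z‖) '' Metric.sphere 0 r)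
      (sSup ((fun z => ‖f z‖) '' Metric.sphere 0 r)) := by
    intro r hr
    refine isLUB_csSup ((NormedSpace.sphere_nonempty.2 hr.le).image _) ⟨∑' n, ‖a n‖ * r ^ n, ?_⟩
    rintro _ ⟨z, hz, rfl⟩
    rw [mem_sphere_zero_iff_norm] at hz
    exact (hsum z).norm_le_of_bounded (aa_summable hN hq hr.le).hasSum
      fun n => by rw [norm_mul, norm_pow, hz]
  refine ⟨f, a, _, _, ?_, hsum, ?_, hm, hM, ?_⟩
  · intro z
    have h1 : DifferentiableOn ℂ (fun w => ∑' n, a n * w ^ n) (Metric.ball 0 (‖z‖ + 1)) := by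
      refine Complex.differentiableOn_tsum_of_summable_norm
        (aa_summable hN hq (r := ‖z‖ + 1) (by positivity)) (fun n => by fun_prop)
        Metric.isOpen_ball fun n w hw => ?_
      rw [mem_ball_zero_iff] at hw
      rw [norm_mul, norm_pow]
      gcongr
    have h2 : (fun w => ∑' n, a n * w ^ n) = f := funext fun w => (hsum w).tsum_eq
    rw [h2] at h1
    exact h1.differentiableAt (Metric.isOpen_ball.mem_nhds (by simp))
  · refine Set.infinite_of_injective_forall_mem (f := fun i => ex N i + D) ?_ ?_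
    · intro i j hij
      have := idx_inj hN (a₁ := (i, ⟨D, by omega⟩)) (a₂ := (j, ⟨D, by omega⟩)) hij
      exact congrArg Prod.fst this
    · intro i
      show aa D N q (ex N i + D) ≠ 0
      rw [aa_idx hN i D (by omega), co, hD]
      refine mul_ne_zero (mul_ne_zero (cf_ne N i) one_ne_zero) (pow_ne_zero _ (div_ne_zero
        (pow_ne_zero _ I_ne_zero) ?_))
      exact_mod_cast (rho_pos i).ne'
  · have he := er_tendsto (D := D)
    have l1 : Tendsto (fun r : ℝ => (1 - er D ⌊r - 3 / 2⌋₊ r) / (k + er D ⌊r - 3 / 2⌋₊ r))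
        atTop (𝓝 C) := by
      have := (he.const_sub 1).div (he.const_add k) (by simpa using hk0.ne')
      simpa [hk, Pi.div_def] using this
    have l2 : Tendsto (fun r : ℝ => (1 + er D ⌊r - 3 / 2⌋₊ r) / (k - er D ⌊r - 3 / 2⌋₊ r))
        atTop (𝓝 C) := by
      have := (he.const_add 1).div (he.const_sub k) (by simpa using hk0.ne')
      simpa [hk, Pi.div_def] using this
    have key : ∀ᶠ r : ℝ in atTop,
        (1 - er D ⌊r - 3 / 2⌋₊ r) / (k + er D ⌊r - 3 / 2⌋₊ r) ≤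
          sSup (Set.range fun n => ‖a n‖ * r ^ n) / sSup ((fun z => ‖f z‖) '' Metric.sphere 0 r) ∧
        sSup (Set.range fun n => ‖a n‖ * r ^ n) / sSup ((fun z => ‖f z‖) '' Metric.sphere 0 r) ≤
          (1 + er D ⌊r - 3 / 2⌋₊ r) / (k - er D ⌊r - 3 / 2⌋₊ r) := by
      filter_upwards [eventually_ge_atTop (3 / 2 : ℝ), he.eventually (gt_mem_nhds one_pos),
        he.eventually (gt_mem_nhds hk0)] with r hr e1 ek
      have f1 := Nat.floor_le (a := r - 3 / 2) (by linarith)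
      have f2 := Nat.lt_floor_add_one (r - 3 / 2)
      set K := ⌊r - 3 / 2⌋₊
      have hr0 : 0 < r := by linarith
      have h1 : (K : ℝ) + 3 / 2 ≤ r := by linarith
      have h2 : r ≤ (K : ℝ) + 5 / 2 := by linarith
      set e := er D K r
      have e0 : 0 ≤ e := er_nonneg K r
      set u := mu N K r with hu
      have u0 : 0 < u := (tt_pos N _ hr0).trans_le (tt2_le K hr0.le)
      set m := sSup (Set.range fun n => ‖a n‖ * r ^ n)
      set M := sSup ((fun z => ‖f z‖) '' Metric.sphere 0 r)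
      have m1 : m ≤ (1 + e) * u := (hm r hr0).2 (by
        rintro _ ⟨n, rfl⟩; exact coef_upper hN hq K h1 h2 n)
      have m2 : (1 - e) * u ≤ m := by
        obtain ⟨n, hn⟩ := coef_lower hN hD K hr0.le
        exact hn.trans ((hm r hr0).1 ⟨n, rfl⟩)
      have hw : ∀ z : ℂ, ‖z‖ = r → ‖(z / (K + 2)) ^ N (K + 1)‖ = (r / (K + 2)) ^ N (K + 1) := by
        intro z hz
        rw [norm_pow, norm_div, hz]
        congr 2
        exact_mod_cast Complex.norm_natCast (K + 2)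
      have hT : ∀ z : ℂ, ‖z‖ = r → ‖cf N (2 * K + 2) * z ^ ex N (2 * K + 2)‖ = tt N (2 * K + 2) r := by
        intro z hz
        rw [norm_mul, norm_pow, hz, tt]
      have M1 : M ≤ (k + e) * u := by
        refine (hM r hr0).2 ?_
        rintro _ ⟨z, hz, rfl⟩
        rw [mem_sphere_zero_iff_norm] at hz
        have t := main_est hN hq hQ K z (hz ▸ h1) (hz ▸ h2)
        have t2 := hU (I ^ (2 * K + 2) * z / ‖z‖) ((z / (K + 2)) ^ N (K + 1))
          (by simp [hz, hr0.ne', abs_of_pos hr0])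
        rw [hw z hz] at t2
        have t3 := mul_le_mul_of_nonneg_left t2 (tt_nonneg N (2 * K + 2) hr0.le)
        rw [mul_left_comm (tt N (2 * K + 2) r) k] at t3
        conv_lhs at t3 => rw [← hT z hz, ← norm_mul]
        have t4 := norm_sub_norm_le (f z) (cf N (2 * K + 2) * z ^ ex N (2 * K + 2) *
          (Q (I ^ (2 * K + 2) * z / ‖z‖) + Q (I * (I ^ (2 * K + 2) * z / ‖z‖)) *
            (z / (K + 2)) ^ N (K + 1) - (3 / 10 : ℂ) * (Q (-(I ^ (2 * K + 2) * z / ‖z‖)) *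
              ((z / (K + 2)) ^ N (K + 1)) ^ 2)))
        conv_rhs at t => rw [hz]
        show ‖f z‖ ≤ _
        change _ ≤ k * u at t3
        change _ ≤ e * u at t
        linarith
      have hlow : ∀ v : ℂ, ‖v‖ = 1 → ∃ w : ℂ, ‖w‖ = (r / (K + 2)) ^ N (K + 1) ∧
          tt N (2 * K + 2) r * ‖Q v + Q (I * v) * w - (3 / 10 : ℂ) * (Q (-v) * w ^ 2)‖ - e * u ≤ M := by
        intro v hv
        set z : ℂ := v * r / I ^ (2 * K + 2) with hzd
        have hz : ‖z‖ = r := by simp [hzd, hv, abs_of_pos hr0]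
        have hr' : (r : ℂ) ≠ 0 := by exact_mod_cast hr0.ne'
        have hv' : I ^ (2 * K + 2) * z / ‖z‖ = v := by
          rw [hz, hzd]; field_simp
        have t := main_est hN hq hQ K z (hz ▸ h1) (hz ▸ h2)
        rw [hv'] at t
        refine ⟨_, hw z hz, ?_⟩
        have t5 : ‖f z‖ ≤ M := (hM r hr0).1 ⟨z, mem_sphere_zero_iff_norm.2 hz, rfl⟩
        rw [← hT z hz, ← norm_mul]
        rw [norm_sub_rev] at t
        have t4 := (norm_sub_norm_le _ _).trans t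
        rw [hz] at t4
        change _ - ‖f z‖ ≤ e * u at t4
        linarith
      have M2 : (k - e) * u ≤ M := by
        rcases mu_cases (N := N) K hr0.le with h | h | h
        · obtain ⟨w, -, hw2⟩ := hlow 1 (by simp)
          simp only [mul_one, hQ2, hQ3, zero_mul, mul_zero, add_zero, sub_zero, hQ1] at hw2
          rw [← h, ← hu] at hw2
          linarith
        · obtain ⟨w, hw1, hw2⟩ := hlow (-I) (by simp)
          simp only [mul_neg, I_mul_I, neg_neg, hQ2, hQ4, zero_mul, mul_zero, zero_add, sub_zero,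
            norm_mul, hQ1, hw1] at hw2
          rw [tt3 K hr0.le, ← hu] at h
          rw [mul_left_comm, ← h] at hw2
          linarith
        · obtain ⟨w, hw1, hw2⟩ := hlow (-1) (by simp)
          simp only [mul_neg, mul_one, neg_neg, hQ3, hQ4, zero_mul, zero_add, zero_sub, norm_neg,
            norm_mul, norm_pow, hQ1, hw1] at hw2
          rw [tt4 K hr0.le, ← hu] at h
          have n3 : ‖(3 / 10 : ℂ)‖ = 3 / 10 := by simp
          rw [n3, mul_left_comm (3 / 10), mul_left_comm, ← h] at hw2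
          linarith
      have p1 : 0 < (k - e) * u := mul_pos (by linarith) u0
      have p2 : 0 ≤ (1 - e) * u := (mul_pos (by linarith) u0).le
      constructor
      · rw [← mul_div_mul_right _ _ u0.ne']
        exact div_le_div₀ (p2.trans m2) m2 (p1.trans_le M2) M1
      · rw [← mul_div_mul_right (1 + e) _ u0.ne']
        exact div_le_div₀ (by positivity) m1 p1 M2
    exact tendsto_of_tendsto_of_tendsto_of_le_of_le' l1 l2 (key.mono fun _ h => h.1)
      (key.mono fun _ h => h.2)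

end Pool.Agent.H.MP_58b66c_an
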